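import Pool.Agent.H767.TR.T1a
import Pool.Agent.H350.TD.S1

/-!
# TR1: one modulus, uniformly in the residue class (unconditional)
-/

set_option autoImplicit false

namespace Pool.Agent.H767.TR

/-- **TR1.** -/
theorem t1 : Pool.Agent.H592.TR.T1 := t1_of Pool.Agent.H350.TD.s1

end Pool.Agent.H767.TR
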