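import Pool.Agent.H592.TR.Stm
import Pool.Agent.H738.TD.S7

/-!
# TR1: one modulus, uniformly in the residue class (proof of `T1` from `Pool.Agent.H592.TD.S1`)

This is a modification of the proof of `Pool.Agent.H592.TD.s7` (helper738) with `a = 1`.
-/

set_option autoImplicit false

open Finset Filter Topology

namespace Pool.Agent.H767.TR

open Pool.Agent.H592.TD
open Pool.Agent.H592.TR (T1)

open H738S7 in
/-- **TR1** from `S1`. -/
theorem t1_of (hS1 : S1) : T1 := by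
  intro β₁ β₂ hβ1 hβ12 hβ2 Z η ε hη hε _
  obtain ⟨η', hη'0, hη'1, hη'2⟩ : ∃ η' : ℝ, 0 < η' ∧ η' ≤ 1 / 2 ∧ η' ≤ η :=
    ⟨min η (1 / 2), lt_min hη (by norm_num), min_le_right _ _, min_le_left _ _⟩
  obtain ⟨C, hC1, hC⟩ := four_pow (ε / 2) (by positivity)
  obtain ⟨lam, hlam⟩ : ∃ lam : ℝ, lam = β₂ - β₁ := ⟨_, rfl⟩
  have hlam0 : 0 < lam := by rw [hlam]; linarith
  obtain ⟨d, hd⟩ : ∃ d : ℝ, d = η' / 2 := ⟨_, rfl⟩
  have hd0 : 0 < d := by rw [hd]; positivity
  have hd1 : d ≤ 1 / 4 := by rw [hd]; linarith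
  have hlogd : 0 < Real.log (1 + d / 2) := Real.log_pos (by linarith)
  obtain ⟨c, hc⟩ : ∃ c : ℝ, c = lam / Real.log (1 + d / 2) := ⟨_, rfl⟩
  have hc0 : 0 < c := by rw [hc]; positivity
  have hZ0 : (0 : ℝ) ≤ Z := Nat.cast_nonneg Z
  obtain ⟨A, hAdef⟩ : ∃ A : ℝ, A = 8 * (Z : ℝ) ^ 2 * C * (2 * Z + 1) + 1 := ⟨_, rfl⟩
  have hA : 0 < A := by rw [hAdef]; positivity
  obtain ⟨X₀, hX₀⟩ := eventually_atTop.mp
    (large β₁ ε η' lam c d A hβ1 hε hη'0 hlam0 hc0 hA)
  refine ⟨X₀, fun X hX s M hs hG hM2 => ?_⟩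
  obtain ⟨a, ha1⟩ : ∃ a : ℕ, a = 1 := ⟨1, rfl⟩
  have ha : 1 ≤ a := ha1.ge
  obtain ⟨g1, g2, g3, g4, g5, g6⟩ := hX₀ X hX
  obtain ⟨M₀, q, rfl, hM₀1, hM₀Z, hsq, hcop1, hcop2⟩ := hG
  obtain ⟨L, hL⟩ : ∃ L : ℝ, L = Real.log X := ⟨_, rfl⟩
  rw [← hL] at g2 g3 g6 ⊢
  have hX0 : 0 < X := by linarith
  have hL0 : 0 < L := by linarith
  obtain ⟨K, hK⟩ : ∃ K : ℕ, K = ⌈c * L⌉₊ := ⟨_, rfl⟩
  have hK1 : c * L ≤ K := by rw [hK]; exact Nat.le_ceil _
  have hK2 : (K : ℝ) ≤ c * L + 1 := by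
    rw [hK]
    exact (Nat.ceil_lt_add_one (by positivity)).le
  have hK0 : (0 : ℝ) < K := lt_of_lt_of_le (by positivity) hK1
  obtain ⟨x, hx⟩ : ∃ x : ℕ → ℝ, x = fun k : ℕ => X ^ (β₁ + lam * ((k : ℝ) / K)) :=
    ⟨_, rfl⟩
  have hxk : ∀ k, x k = X ^ (β₁ + lam * (k / K)) := fun k => by rw [hx]
  obtain ⟨B, hB⟩ : ∃ B : ℕ → ℕ, B = fun k => ⌊x k⌋₊ := ⟨_, rfl⟩
  have hBk : ∀ k, B k = ⌊x k⌋₊ := fun k => by rw [hB]
  have hxmono : Monotone x := by
    intro i j hij
    rw [hxk, hxk]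
    refine Real.rpow_le_rpow_of_exponent_le g1 ?_
    have h1 : ((i : ℝ) / K) ≤ (j : ℝ) / K :=
      div_le_div_of_nonneg_right (by exact_mod_cast hij) hK0.le
    have := mul_le_mul_of_nonneg_left h1 hlam0.le
    linarith
  have hBmono : Monotone B := by
    intro i j hij
    rw [hBk, hBk]
    exact Nat.floor_le_floor (hxmono hij)
  have hx0 : x 0 = X ^ β₁ := by
    rw [hxk, Nat.cast_zero, zero_div, mul_zero, add_zero]
  have hxK : x K = X ^ β₂ := by
    rw [hxk, div_self hK0.ne', mul_one, hlam]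
    congr 1
    ring
  have hxge : ∀ k, X ^ β₁ ≤ x k := fun k => by
    rw [← hx0]
    exact hxmono (Nat.zero_le k)
  have hxpos : ∀ k, 0 < x k := fun k => lt_of_lt_of_le (by linarith) (hxge k)
  have hratio : ∀ k, x (k + 1) = x k * X ^ (lam / K) := by
    intro k
    rw [hxk, hxk, ← Real.rpow_add hX0]
    congr 1
    push_cast
    field_simp
    ring
  have hXr : X ^ (lam / K) ≤ 1 + d / 2 := by
    rw [Real.rpow_def_of_pos hX0, ← hL]
    have h1 : L * (lam / K) ≤ Real.log (1 + d / 2) := by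
      rw [mul_div_assoc', div_le_iff₀ hK0]
      have h2 : lam = c * Real.log (1 + d / 2) := by
        rw [hc, div_mul_cancel₀ _ hlogd.ne']
      calc L * lam = Real.log (1 + d / 2) * (c * L) := by rw [h2]; ring
        _ ≤ Real.log (1 + d / 2) * K := mul_le_mul_of_nonneg_left hK1 hlogd.le
    calc Real.exp (L * (lam / K)) ≤ Real.exp (Real.log (1 + d / 2)) := Real.exp_le_exp.mpr h1
      _ = 1 + d / 2 := Real.exp_log (by linarith)
  have hBle : ∀ k, (B k : ℝ) ≤ x k := fun k => by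
    rw [hBk]
    exact Nat.floor_le (hxpos k).le
  have hBge : ∀ k, x k - 1 ≤ (B k : ℝ) := fun k => by
    rw [hBk]
    have := Nat.lt_floor_add_one (x k)
    linarith
  have hBr : ∀ k, (B (k + 1) : ℝ) ≤ (1 + d) * B k := by
    intro k
    have h1 := hBle (k + 1)
    have h2 := hBge k
    have h3 : x (k + 1) ≤ x k * (1 + d / 2) := by
      rw [hratio]
      exact mul_le_mul_of_nonneg_left hXr (hxpos k).le
    have h4 : 2 * (1 + d) / d ≤ x k := g4.trans (hxge k)
    rw [div_le_iff₀ hd0] at h4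
    have h5 : (1 + d) * (x k - 1) ≤ (1 + d) * B k :=
      mul_le_mul_of_nonneg_left h2 (by linarith)
    have h6 : (1 + d) * (x k - 1) = x k * (1 + d / 2) + (x k * d - 2 * (1 + d)) / 2 := by ring
    linarith
  have hBhalf : ∀ k, x k / 2 ≤ (B k : ℝ) := by
    intro k
    have h1 := hBge k
    have h2 := hxge k
    linarith
  have hB1 : ∀ k, 1 ≤ B k := by
    intro k
    have h1 := hBhalf k
    have h2 := hxge k
    have h3 : (1 : ℝ) ≤ B k := by linarith
    exact_mod_cast h3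
  have hBpos : ∀ k, (0 : ℝ) < B k := fun k => by exact_mod_cast hB1 k
  have hBstep : ∀ k, (B k : ℝ) ≤ B (k + 1) := fun k => by
    exact_mod_cast hBmono (Nat.le_succ k)
  have ha' : (0 : ℝ) < a := by exact_mod_cast ha
  have hq0 : 0 < q := Nat.pos_of_ne_zero hsq.ne_zero
  have hq' : (0 : ℝ) < q := by exact_mod_cast hq0
  have hM₀' : (1 : ℝ) ≤ M₀ := by exact_mod_cast hM₀1
  have hM₀Z' : (M₀ : ℝ) ≤ Z := by exact_mod_cast hM₀Z
  have hMcast : ((M₀ * q : ℕ) : ℝ) = (M₀ : ℝ) * q := by push_cast; rfl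
  rw [hMcast] at hM2 ⊢
  have hMpos : (0 : ℝ) < (M₀ : ℝ) * q := by positivity
  have hρ : 0 ≤ rho s a (M₀ * q) := by unfold rho; positivity
  -- the sum over the parts
  have hsum : ∑ b ∈ In X β₁ β₂, (cc s X (M₀ * q) a b : ℝ) =
      ∑ k ∈ range K, ∑ b ∈ Ioc (B k) (B (k + 1)), (cc s X (M₀ * q) a b : ℝ) := by
    have h1 := sum_parts B hBmono (fun b => (cc s X (M₀ * q) a b : ℝ)) K
    rw [hBk 0, hBk K, hx0, hxK] at h1
    exact h1
  obtain ⟨V, hV⟩ : ∃ V : ℝ, V = Real.sqrt ((M₀ : ℝ) * q) + X ^ β₂ / Real.sqrt ((M₀ : ℝ) * q) +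
      X ^ (1 - β₁) / ((a : ℝ) * ((M₀ : ℝ) * q)) := ⟨_, rfl⟩
  have hV0 : 0 ≤ V := by rw [hV]; positivity
  obtain ⟨E, hE⟩ : ∃ E : ℝ, E = 8 * (M₀ : ℝ) ^ 2 * 4 ^ q.primeFactors.card *
    (2 + Real.log (M₀ * q)) ^ 2 := ⟨_, rfl⟩
  have hE0 : 0 ≤ E := by rw [hE]; positivity
  have hper : ∀ k ∈ range K,
      (X / a * ((1 - d) * (Real.log (B (k + 1)) - Real.log (B k)) - 1 / L) -
        ((B (k + 1) : ℝ) - B k)) * rho s a (M₀ * q) - E * ((2 * Z + 1) * V) ≤
      ∑ b ∈ Ioc (B k) (B (k + 1)), (cc s X (M₀ * q) a b : ℝ) := by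
    intro k hk
    have hkK : k + 1 ≤ K := mem_range.mp hk
    have hBL : (B (k + 1) : ℝ) ≤ B k * L := by
      calc (B (k + 1) : ℝ) ≤ (1 + d) * B k := hBr k
        _ ≤ L * B k := mul_le_mul_of_nonneg_right (by linarith) (hBpos k).le
        _ = B k * L := mul_comm _ _
    have h1 := box hS1 s hs M₀ q hM₀1 hsq hcop1 hcop2 X L g1 hL (by linarith) a (B k) (B (k + 1))
      ha (hB1 k) (hBmono (Nat.le_succ k)) hBL
    rw [← hE] at h1
    have h2 := main_one X L d a (B k) (B (k + 1)) hX0 hL0 hd0.le (by linarith) ha' (hBpos k)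
      (hBstep k) (hBr k)
    have h3 := mul_le_mul_of_nonneg_right h2 hρ
    have h4 : ((B (k + 1) : ℝ) - B k) / Real.sqrt q + Real.sqrt q + X / (a * B (k + 1)) / q ≤
        (2 * Z + 1) * V := by
      have hsq' : 0 < Real.sqrt q := Real.sqrt_pos.mpr hq'
      have hsM : Real.sqrt q ≤ Real.sqrt ((M₀ : ℝ) * q) := by
        exact Real.sqrt_le_sqrt (le_mul_of_one_le_left hq'.le hM₀')
      have t0 : 0 ≤ X ^ β₂ / Real.sqrt ((M₀ : ℝ) * q) := by positivity
      have t1 : ((B (k + 1) : ℝ) - B k) / Real.sqrt q ≤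
          Z * (X ^ β₂ / Real.sqrt ((M₀ : ℝ) * q)) := by
        have u1 : (B (k + 1) : ℝ) - B k ≤ X ^ β₂ := by
          have v1 := hBle (k + 1)
          have v2 : x (k + 1) ≤ x K := hxmono hkK
          rw [hxK] at v2
          have v3 := hBpos k
          linarith
        have hs0 : 0 < Real.sqrt (M₀ : ℝ) := Real.sqrt_pos.mpr (by linarith)
        have hs1 : Real.sqrt (M₀ : ℝ) ≤ Z := by
          refine le_trans ?_ hM₀Z'
          rw [Real.sqrt_le_left (by linarith)]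
          nlinarith
        calc ((B (k + 1) : ℝ) - B k) / Real.sqrt q ≤ X ^ β₂ / Real.sqrt q :=
              div_le_div_of_nonneg_right u1 hsq'.le
          _ = Real.sqrt (M₀ : ℝ) * (X ^ β₂ / Real.sqrt ((M₀ : ℝ) * q)) := by
              rw [Real.sqrt_mul (by linarith)]
              field_simp
          _ ≤ Z * (X ^ β₂ / Real.sqrt ((M₀ : ℝ) * q)) := mul_le_mul_of_nonneg_right hs1 t0
      have t2 : X / (a * B (k + 1)) / q ≤
          2 * Z * (X ^ (1 - β₁) / ((a : ℝ) * ((M₀ : ℝ) * q))) := by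
        have u1 : X ^ β₁ / 2 ≤ (B (k + 1) : ℝ) := by
          have v1 := hBhalf (k + 1)
          have v2 := hxge (k + 1)
          linarith
        have hXβ : 0 < X ^ β₁ := Real.rpow_pos_of_pos hX0 _
        have u2 : X / (a * B (k + 1)) / q ≤ X / (a * (X ^ β₁ / 2)) / q := by
          refine div_le_div_of_nonneg_right ?_ hq'.le
          refine div_le_div_of_nonneg_left hX0.le (by positivity) ?_
          exact mul_le_mul_of_nonneg_left u1 ha'.le
        have u3 : X / (a * (X ^ β₁ / 2)) / q = 2 * M₀ * (X ^ (1 - β₁) / (a * (M₀ * q))) := by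
          rw [Real.rpow_sub hX0, Real.rpow_one]
          have : (M₀ : ℝ) ≠ 0 := by positivity
          field_simp
        rw [u3] at u2
        refine u2.trans ?_
        refine mul_le_mul_of_nonneg_right (by linarith) (by positivity)
      have t3 : 0 ≤ Real.sqrt ((M₀ : ℝ) * q) := Real.sqrt_nonneg _
      have t4 : 0 ≤ X ^ (1 - β₁) / ((a : ℝ) * ((M₀ : ℝ) * q)) := by positivity
      rw [hV]
      have t5 : (2 * (Z : ℝ) + 1) * (Real.sqrt ((M₀ : ℝ) * q) +
          X ^ β₂ / Real.sqrt ((M₀ : ℝ) * q) +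
          X ^ (1 - β₁) / ((a : ℝ) * ((M₀ : ℝ) * q))) =
          Z * (X ^ β₂ / Real.sqrt ((M₀ : ℝ) * q)) + Real.sqrt ((M₀ : ℝ) * q) +
          2 * Z * (X ^ (1 - β₁) / ((a : ℝ) * ((M₀ : ℝ) * q))) +
          (2 * (Z * Real.sqrt ((M₀ : ℝ) * q)) + Z * (X ^ β₂ / Real.sqrt ((M₀ : ℝ) * q)) +
            X ^ β₂ / Real.sqrt ((M₀ : ℝ) * q) +
            X ^ (1 - β₁) / ((a : ℝ) * ((M₀ : ℝ) * q))) := by ring
      have t6 := mul_nonneg hZ0 t3
      have t7 := mul_nonneg hZ0 t0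
      rw [t5]
      linarith
    have h5 := mul_le_mul_of_nonneg_left h4 hE0
    linarith
  have htot := sum_le_sum hper
  rw [← hsum, sum_sub_distrib, ← sum_mul, sum_sub_distrib, ← mul_sum, sum_sub_distrib, ← mul_sum,
    sum_range_sub (fun k => Real.log (B k)), sum_range_sub (fun k => (B k : ℝ)), sum_const,
    sum_const, card_range, nsmul_eq_mul, nsmul_eq_mul] at htot
  -- the main term
  have hXa : 0 < X / a := by positivity
  have P1 : (1 - η) * (lam * L) * (X / a) ≤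
      X / a * ((1 - d) * (Real.log (B K) - Real.log (B 0)) - K * (1 / L)) -
        ((B K : ℝ) - B 0) := by
    have h1 : (B K : ℝ) ≤ X / a := by
      have v1 := hBle K
      rw [hxK] at v1
      refine v1.trans ?_
      rw [ha1, Nat.cast_one, div_one]
      calc X ^ β₂ ≤ X ^ (1 : ℝ) := Real.rpow_le_rpow_of_exponent_le g1 hβ2.le
        _ = X := Real.rpow_one X
    have h2 : β₂ * L - 1 ≤ Real.log (B K) := by
      have v1 := hBhalf K
      rw [hxK] at v1
      have hp : 0 < X ^ β₂ := Real.rpow_pos_of_pos hX0 _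
      have v2 := Real.log_le_log (by positivity) v1
      rw [Real.log_div hp.ne' (by norm_num), Real.log_rpow hX0, ← hL] at v2
      have v3 := Real.log_two_lt_d9
      linarith
    have h3 : Real.log (B 0) ≤ β₁ * L := by
      have v1 := hBle 0
      rw [hx0] at v1
      have v2 := Real.log_le_log (hBpos 0) v1
      rw [Real.log_rpow hX0, ← hL] at v2
      exact v2
    have h4 : (K : ℝ) * (1 / L) ≤ c + 1 := by
      rw [mul_one_div, div_le_iff₀ hL0]
      have : (c + 1) * L = c * L + L := by ring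
      linarith
    have h5 : lam * L - 1 ≤ Real.log (B K) - Real.log (B 0) := by
      rw [hlam]
      linarith
    have h6 : (1 - d) * (lam * L - 1) ≤ (1 - d) * (Real.log (B K) - Real.log (B 0)) :=
      mul_le_mul_of_nonneg_left h5 (by linarith)
    have h7 : (1 - η) * (lam * L) ≤
        (1 - d) * (Real.log (B K) - Real.log (B 0)) - K * (1 / L) - 1 := by
      have hlL : 0 ≤ lam * L := by positivity
      have w1 : (1 - η) * (lam * L) ≤ (1 - η') * (lam * L) :=
        mul_le_mul_of_nonneg_right (by linarith) hlL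
      have w2 : (1 - d) * (lam * L - 1) = (1 - η') * (lam * L) + η' / 2 * lam * L - (1 - d) := by
        rw [hd]
        ring
      linarith
    have h8 := mul_le_mul_of_nonneg_left h7 hXa.le
    have h9 := (hBpos 0).le
    linarith
  have P2 := mul_le_mul_of_nonneg_right P1 hρ
  -- the error
  have P3 : (K : ℝ) * (E * ((2 * Z + 1) * V)) ≤ X ^ ε * V := by
    have h1 : (4 : ℝ) ^ q.primeFactors.card ≤ C * X ^ (ε / 2) := by
      refine (hC q hq0).trans (mul_le_mul_of_nonneg_left ?_ (by linarith))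
      exact Real.rpow_le_rpow hq'.le ((le_mul_of_one_le_left hq'.le hM₀').trans hM2)
        (by positivity)
    have h2 : Real.log (M₀ * q) ≤ L := by
      rw [hL]
      exact Real.log_le_log hMpos hM2
    have hMq1 : (1 : ℝ) ≤ (M₀ : ℝ) * q := by
      have : (1 : ℝ) ≤ q := by exact_mod_cast hq0
      exact one_le_mul_of_one_le_of_one_le hM₀' this
    have h3 : 0 ≤ Real.log (M₀ * q) := Real.log_nonneg hMq1
    have h4 : (2 + Real.log (M₀ * q)) ^ 2 ≤ (2 + L) ^ 2 :=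
      pow_le_pow_left₀ (by linarith) (by linarith) 2
    have hXe : 0 < X ^ (ε / 2) := Real.rpow_pos_of_pos hX0 _
    have h5 : E ≤ 8 * (Z : ℝ) ^ 2 * (C * X ^ (ε / 2)) * (2 + L) ^ 2 := by
      rw [hE]
      have h6 : (M₀ : ℝ) ^ 2 ≤ (Z : ℝ) ^ 2 := pow_le_pow_left₀ (by linarith) hM₀Z' 2
      have hCX : 0 ≤ C * X ^ (ε / 2) := by positivity
      refine mul_le_mul (mul_le_mul (by linarith) h1 (by positivity) (by positivity)) h4
        (by positivity) (by positivity)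
    have h7 : (K : ℝ) * (E * ((2 * Z + 1) * V)) ≤
        (c * L + 1) * ((8 * (Z : ℝ) ^ 2 * (C * X ^ (ε / 2)) * (2 + L) ^ 2) *
          ((2 * Z + 1) * V)) := by
      refine mul_le_mul hK2 (mul_le_mul_of_nonneg_right h5 (by positivity)) (by positivity)
        (by positivity)
    refine h7.trans ?_
    have h8 : (c * L + 1) * ((8 * (Z : ℝ) ^ 2 * (C * X ^ (ε / 2)) * (2 + L) ^ 2) *
          ((2 * Z + 1) * V)) =
        ((c * L + 1) * ((A - 1) * (2 + L) ^ 2)) * (X ^ (ε / 2) * V) := by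
      rw [hAdef]
      ring
    rw [h8]
    have h9 : (c * L + 1) * ((A - 1) * (2 + L) ^ 2) ≤ X ^ (ε / 2) := by
      refine le_trans ?_ g6
      refine mul_le_mul_of_nonneg_left ?_ (by positivity)
      exact mul_le_mul_of_nonneg_right (by linarith) (by positivity)
    calc ((c * L + 1) * ((A - 1) * (2 + L) ^ 2)) * (X ^ (ε / 2) * V)
        ≤ X ^ (ε / 2) * (X ^ (ε / 2) * V) := mul_le_mul_of_nonneg_right h9 (by positivity)
      _ = X ^ ε * V := by
          rw [← mul_assoc, ← Real.rpow_add hX0]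
          congr 2
          ring
  have key : (1 - η) * (lam * L) * (X / a) * rho s a (M₀ * q) - X ^ ε * V ≤
      ∑ b ∈ In X β₁ β₂, (cc s X (M₀ * q) a b : ℝ) := by linarith
  rw [hV, ha1, Nat.cast_one, div_one, one_mul] at key
  rw [← hlam]
  exact key

end Pool.Agent.H767.TR
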